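import Pool.Agent.Helper45.U4.St2

/-!
# Project U4 (MP_a1f43d_co): module VEC
-/

set_option autoImplicit false

open Module Classical
open scoped LinearAlgebra.Projectivization

namespace Pool.Agent.Helper84.U4

open Pool.Agent.Helper45.U4 Pool.Agent.Helper53.PB

section bits

theorem bit_lo {a b : ℕ} (ha : a < 64) (i : ℕ) (hi : i < 6) : (a + 64 * b).testBit i = a.testBit i := by
  have h := Nat.testBit_two_pow_mul_add (a := b) (b := a) (i := 6) (by simpa using ha) i
  rw [if_pos hi] at h
  rw [← h]
  congr 1
  omega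

theorem bit_hi {a b : ℕ} (ha : a < 64) (i : ℕ) : (a + 64 * b).testBit (i + 6) = b.testBit i := by
  have h := Nat.testBit_two_pow_mul_add (a := b) (b := a) (i := 6) (by simpa using ha) (i + 6)
  rw [if_neg (by omega)] at h
  have e : i + 6 - 6 = i := by omega
  rw [e] at h
  rw [← h]
  congr 1
  omega

theorem div_bit (n i : ℕ) : (n / 64).testBit i = n.testBit (i + 6) := by
  have h := Nat.testBit_div_two_pow (i := i) (x := n) (n := 6)
  have e : (2 : ℕ) ^ 6 = 64 := by norm_num
  rw [e] at h
  rw [h, add_comm]

theorem mod_bit (n i : ℕ) (hi : i < 6) : (n % 64).testBit i = n.testBit i := by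
  have h := Nat.testBit_mod_two_pow n 6 i
  have e : (2 : ℕ) ^ 6 = 64 := by norm_num
  rw [e] at h
  rw [h]
  simp [hi]

theorem xor64 {a b : ℕ} (ha : a < 64) (hb : b < 64) : a ^^^ b < 64 := by
  have := Nat.xor_lt_two_pow (n := 6) (x := a) (y := b) (by simpa using ha) (by simpa using hb)
  simpa using this

theorem xor4096 {a b : ℕ} (ha : a < 4096) (hb : b < 4096) : a ^^^ b < 4096 := by
  have := Nat.xor_lt_two_pow (n := 12) (x := a) (y := b) (by simpa using ha) (by simpa using hb)
  simpa using this

theorem wm_lo {n : ℕ} (hn : n < 4096) (i : ℕ) (hi : i < 6) : (wm n).testBit i = n.testBit (i + 6) := by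
  unfold wm
  rw [bit_lo (by omega) i hi, div_bit]

theorem wm_hi {n : ℕ} (hn : n < 4096) (i : ℕ) (hi : i < 6) :
    (wm n).testBit (i + 6) = (n.testBit i ^^ n.testBit (i + 6)) := by
  unfold wm
  rw [bit_hi (by omega) i, Nat.testBit_xor, mod_bit n i hi, div_bit]

theorem wm_lt {n : ℕ} (hn : n < 4096) : wm n < 4096 := by
  unfold wm
  have h1 : n / 64 < 64 := by omega
  have h2 := xor64 (a := n % 64) (b := n / 64) (by omega) h1
  omega

end bits

theorem hVEC : StVEC := by
  intro F V _ _ _ ω b hω
  have hne1 : (1 : F) ≠ 0 := one_ne_zero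
  have hne2 : ω + 1 ≠ 0 := by
    intro h
    have h2 := hω.two 1
    have : ω = 1 := by
      have : ω + 1 = 1 + 1 := by rw [h, h2]
      exact add_right_cancel this
    exact hω.ne1 this
  -- the coefficients
  have hx : ∀ (c : F) (x y : Bool), (if (x ^^ y) = true then c else 0) =
      (if x = true then c else 0) + (if y = true then c else 0) := by
    intro c x y
    cases x <;> cases y <;> simp [hω.two c]
  have hcoef : ∀ x y : Bool, (if x = true then (1 : F) else 0) + (if y = true then ω else 0) = 0 →
      x = false ∧ y = false := by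
    intro x y h
    cases x <;> cases y <;> simp at h ⊢
    · exact hω.ne h
    · exact hne2 (by rw [add_comm]; exact h)
  refine ⟨?_, ?_, ?_, ?_, ?_, ?_⟩
  · intro m n
    unfold vv
    rw [← Finset.sum_add_distrib]
    refine Finset.sum_congr rfl fun i _ => ?_
    rw [← add_smul, Nat.testBit_xor, Nat.testBit_xor, hx, hx]
    congr 1
    abel
  · intro n hn
    refine ⟨?_, wm_lt hn⟩
    unfold vv
    rw [Finset.smul_sum]
    refine Finset.sum_congr rfl fun i _ => ?_
    rw [wm_lo hn i i.2, wm_hi hn i i.2, smul_smul, hx]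
    congr 1
    have h2 := hω.sq
    rw [pow_two] at h2
    have h3 : ω + 1 + ω = 1 := by
      rw [add_right_comm, hω.two, zero_add]
    split_ifs <;> simp [mul_add, h2, h3, hω.two, add_comm]
  · intro m n hm hn
    exact xor4096 hm hn
  · intro hli n hn h0
    unfold vv at h0
    have h1 := Fintype.linearIndependent_iff.1 hli _ h0
    have h2 : ∀ i : Fin 6, n.testBit i = false ∧ n.testBit (i + 6) = false := fun i => hcoef _ _ (h1 i)
    apply Nat.eq_of_testBit_eq
    intro j
    rw [Nat.zero_testBit]
    by_cases hj : j < 6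
    · exact (h2 ⟨j, hj⟩).1
    · by_cases hj2 : j < 12
      · have h3 := (h2 ⟨j - 6, by omega⟩).2
        have e : j - 6 + 6 = j := by omega
        rw [e] at h3
        exact h3
      · apply Nat.testBit_eq_false_of_lt
        refine lt_of_lt_of_le hn ?_
        calc 4096 = 2 ^ 12 := by norm_num
          _ ≤ 2 ^ j := Nat.pow_le_pow_right (by norm_num) (by omega)
  · intro v hv
    obtain ⟨c, rfl⟩ := (Submodule.mem_span_range_iff_exists_fun F).1 hv
    let X : ℕ → Bool := fun i => if h : i < 6 then decide (c ⟨i, h⟩ = 1 ∨ c ⟨i, h⟩ = ω + 1) else false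
    let Y : ℕ → Bool := fun i => if h : i < 6 then decide (c ⟨i, h⟩ = ω ∨ c ⟨i, h⟩ = ω + 1) else false
    let f : Fin 12 → Bool := fun j => if (j : ℕ) < 6 then X j else Y (j - 6)
    refine ⟨Nat.ofBits f, ?_, ?_⟩
    · have := Nat.ofBits_lt_two_pow f
      norm_num at this
      exact this
    · unfold vv
      refine Finset.sum_congr rfl fun i _ => ?_
      have hi : (i : ℕ) < 6 := i.2
      rw [Nat.testBit_ofBits_lt f i (by omega), Nat.testBit_ofBits_lt f (i + 6) (by omega)]
      have e1 : f ⟨i, by omega⟩ = decide (c i = 1 ∨ c i = ω + 1) := by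
        simp only [f, X]
        rw [if_pos hi, dif_pos hi]
      have e2 : f ⟨i + 6, by omega⟩ = decide (c i = ω ∨ c i = ω + 1) := by
        simp only [f, Y]
        rw [if_neg (by omega)]
        simp only [Nat.add_sub_cancel]
        rw [dif_pos hi]
      rw [e1, e2]
      congr 1
      have g1 : ω ≠ ω + 1 := fun h => hne1 (by
        have : ω + 0 = ω + 1 := by rw [add_zero]; exact h
        exact (add_left_cancel this).symm)
      have g2 : (1 : F) ≠ ω + 1 := fun h => hω.ne (by
        have : 0 + 1 = ω + 1 := by rw [zero_add]; exact h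
        exact (add_right_cancel this).symm)
      rcases hω.all (c i) with h | h | h | h
      · rw [h]
        simp [hne1.symm, hω.ne.symm, hne2.symm]
      · rw [h]
        simp [hω.ne1.symm, g2]
      · rw [h]
        simp [hω.ne1, g1]
      · rw [h]
        simp [add_comm]
  · refine ⟨?_, ?_, ?_, ?_, ?_, ?_, ?_⟩ <;>
    · unfold vv
      rw [Fin.sum_univ_six]
      simp [Nat.testBit]
      try ring_nf

end Pool.Agent.Helper84.U4
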